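import Mathlib
import Pool.Agent.H23.TutteMB

set_option autoImplicit false

namespace Pool.Agent.Results.MP_f03b0a_co.Outerplanar
open Pool.Agent.H23.TutteM

theorem result : ¬ ∀ G H : MG, G.tutte = H.tutte → G.Outerplanar → H.Outerplanar :=
  fun h => o2 (h G1 H1 t1 o1)

end Pool.Agent.Results.MP_f03b0a_co.Outerplanar
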