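import Mathlib
import Pool.Agent.H23.TutteMB

set_option autoImplicit false

namespace Pool.Agent.Results.MP_f03b0a_co.ThreeConn
open Pool.Agent.H23.TutteM

theorem result : ¬ ∀ G H : MG, (G.span Finset.univ).Connected → (H.span Finset.univ).Connected →
    G.tutte = H.tutte → G.ThreeConn → H.ThreeConn :=
  fun h => c4 (h G2 H2 c2 c3 t2 c1)

end Pool.Agent.Results.MP_f03b0a_co.ThreeConn
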